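import Mathlib

/-!
Optimal `d`-intersecting families of chains of subsets of `[n]`: for `2 ≤ d ≤ n` no optimal family
consists only of chains containing the initial sets `X_0, …, X_{d-1}`.
-/

namespace Pool.Agent.Results.MP_63ed06_co.TopSetWins

open Finset

variable {n : ℕ}

/-- A (nonempty) chain of subsets of `Fin n`, given by its set of members. -/
def IsChn (C : Finset (Finset (Fin n))) : Prop :=
  C.Nonempty ∧ ∀ A ∈ C, ∀ B ∈ C, A ⊆ B ∨ B ⊆ A

/-- A `d`-intersecting family of chains: any two members (equal or not) share at least `d` sets. -/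
def DInt (d : ℕ) (F : Finset (Finset (Finset (Fin n)))) : Prop :=
  (∀ C ∈ F, IsChn C) ∧ ∀ C ∈ F, ∀ C' ∈ F, d ≤ (C ∩ C').card

/-- An optimal `d`-intersecting family: one of the maximum cardinality. -/
def Optimal (d : ℕ) (F : Finset (Finset (Finset (Fin n)))) : Prop :=
  DInt d F ∧ ∀ G : Finset (Finset (Finset (Fin n))), DInt d G → G.card ≤ F.card

/-- The initial set `X_j`, consisting of the first `j` elements. -/
def X (n j : ℕ) : Finset (Fin n) := univ.filter (fun i => i.val < j)

lemma X_subset {i j : ℕ} (h : i ≤ j) : X n i ⊆ X n j := by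
  intro z hz
  have := (mem_filter.1 hz).2
  exact mem_filter.2 ⟨mem_univ _, by omega⟩

lemma X_inj {i j : ℕ} (hi : i ≤ n) (hj : j ≤ n) (h : X n i = X n j) : i = j := by
  by_contra hne
  rcases Nat.lt_or_gt_of_ne hne with h1 | h1
  · have : (⟨i, by omega⟩ : Fin n) ∈ X n j := mem_filter.2 ⟨mem_univ _, h1⟩
    rw [← h] at this
    exact absurd (mem_filter.1 this).2 (lt_irrefl _)
  · have : (⟨j, by omega⟩ : Fin n) ∈ X n i := mem_filter.2 ⟨mem_univ _, h1⟩
    rw [h] at this
    exact absurd (mem_filter.1 this).2 (lt_irrefl _)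

lemma X_top : X n n = univ := by
  ext z; simp [X]

open Classical in
/-- All chains containing `X_0, …, X_{d-1}`. -/
noncomputable def F1 (n d : ℕ) : Finset (Finset (Finset (Fin n))) :=
  univ.filter (fun C => IsChn C ∧ ∀ j < d, X n j ∈ C)

open Classical in
/-- All chains containing `X_0, …, X_{d-2}` and `X_n`. -/
noncomputable def F2 (n d : ℕ) : Finset (Finset (Finset (Fin n))) :=
  univ.filter (fun C => IsChn C ∧ (∀ j < d - 1, X n j ∈ C) ∧ X n n ∈ C)

lemma F2_dInt {d : ℕ} (hd : 2 ≤ d) (hdn : d ≤ n) : DInt d (F2 n d) := by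
  classical
  refine ⟨fun C hC => (mem_filter.1 hC).2.1, fun C hC C' hC' => ?_⟩
  obtain ⟨-, -, h1, h2⟩ := mem_filter.1 hC
  obtain ⟨-, -, h1', h2'⟩ := mem_filter.1 hC'
  have hsub : insert (X n n) ((range (d - 1)).image (X n)) ⊆ C ∩ C' := by
    intro A hA
    rcases mem_insert.1 hA with rfl | hA
    · exact mem_inter.2 ⟨h2, h2'⟩
    · obtain ⟨j, hj, rfl⟩ := mem_image.1 hA
      exact mem_inter.2 ⟨h1 j (mem_range.1 hj), h1' j (mem_range.1 hj)⟩
  refine le_trans ?_ (card_le_card hsub)
  rw [card_insert_of_notMem, card_image_of_injOn, card_range]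
  · omega
  · intro i hi j hj hij
    rw [mem_coe, mem_range] at hi hj
    exact X_inj (by omega) (by omega) hij
  · intro h
    obtain ⟨j, hj, h3⟩ := mem_image.1 h
    rw [mem_range] at hj
    have := X_inj (by omega) le_rfl h3
    omega

/-- The replacement map. -/
def rep (n d : ℕ) (C : Finset (Finset (Fin n))) : Finset (Finset (Fin n)) :=
  if X n n ∈ C then C else insert (X n n) (C.erase (X n (d - 1)))

lemma card_lt {d : ℕ} (hd : 2 ≤ d) (hdn : d ≤ n) : (F1 n d).card < (F2 n d).card := by
  classical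
  have hmaps : ∀ C ∈ F1 n d, rep n d C ∈ F2 n d := by
    intro C hC
    obtain ⟨-, hch, h1⟩ := mem_filter.1 hC
    unfold rep
    split_ifs with htop
    · exact mem_filter.2 ⟨mem_univ _, hch, fun j hj => h1 j (by omega), htop⟩
    · refine mem_filter.2 ⟨mem_univ _, ⟨⟨_, mem_insert_self _ _⟩, ?_⟩, ?_, mem_insert_self _ _⟩
      · intro A hA B hB
        rcases mem_insert.1 hA with hA1 | hA1
        · right; rw [hA1, X_top]; exact subset_univ _
        · rcases mem_insert.1 hB with hB1 | hB1
          · left; rw [hB1, X_top]; exact subset_univ _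
          · exact hch.2 A (mem_of_mem_erase hA1) B (mem_of_mem_erase hB1)
      · intro j hj
        refine mem_insert_of_mem (mem_erase.2 ⟨?_, h1 j (by omega)⟩)
        intro h
        have := X_inj (by omega) (by omega) h
        omega
  have hne : X n n ≠ X n (d - 1) := by
    intro h
    have := X_inj le_rfl (by omega) h
    omega
  have hinj : Set.InjOn (rep n d) (F1 n d) := by
    intro C hC C' hC' h
    obtain ⟨-, -, h1⟩ := mem_filter.1 (mem_coe.1 hC)
    obtain ⟨-, -, h1'⟩ := mem_filter.1 (mem_coe.1 hC')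
    have a1 := h1 (d - 1) (by omega)
    have a1' := h1' (d - 1) (by omega)
    have key : ∀ D : Finset (Finset (Fin n)), X n n ∉ D → X n (d - 1) ∈ D →
        insert (X n (d - 1)) ((insert (X n n) (D.erase (X n (d - 1)))).erase (X n n)) = D := by
      intro D hD hD2
      rw [erase_insert (fun h => hD (mem_of_mem_erase h)), insert_erase hD2]
    have key2 : ∀ D : Finset (Finset (Fin n)),
        X n (d - 1) ∉ insert (X n n) (D.erase (X n (d - 1))) := by
      intro D h
      rcases mem_insert.1 h with h | h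
      · exact hne h.symm
      · exact notMem_erase _ _ h
    unfold rep at h
    split_ifs at h with h2 h3 h3
    · exact h
    · exfalso
      rw [h] at a1
      exact key2 C' a1
    · exfalso
      rw [← h] at a1'
      exact key2 C a1'
    · rw [← key C h2 a1, ← key C' h3 a1', h]
  -- a chain that is missed
  have hdlt : d - 1 < n := by omega
  set Y : Finset (Fin n) := insert ⟨n - 1, by omega⟩ (X n (d - 2)) with hY
  set Z : Finset (Finset (Fin n)) := insert (X n n) (insert Y ((range (d - 1)).image (X n))) with hZ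
  have hYX : ∀ j, j ≤ d - 2 → X n j ⊆ Y := by
    intro j hj
    exact (X_subset hj).trans (subset_insert _ _)
  have hZmem : ∀ A ∈ Z, A = univ ∨ A = Y ∨ ∃ j < d - 1, X n j = A := by
    intro A hA
    rcases mem_insert.1 hA with h | h
    · left; rw [h, X_top]
    · rcases mem_insert.1 h with h | h
      · right; left; exact h
      · obtain ⟨j, hj, h⟩ := mem_image.1 h
        exact Or.inr (Or.inr ⟨j, mem_range.1 hj, h⟩)
  have hZch : IsChn Z := by
    refine ⟨⟨_, mem_insert_self _ _⟩, ?_⟩
    intro A hA B hB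
    rcases hZmem A hA with h | h | ⟨i, hi, h⟩
    · right; rw [h]; exact subset_univ _
    · rcases hZmem B hB with h' | h' | ⟨j, hj, h'⟩
      · left; rw [h']; exact subset_univ _
      · left; rw [h, h']
      · right; rw [h, ← h']; exact hYX j (by omega)
    · rcases hZmem B hB with h' | h' | ⟨j, hj, h'⟩
      · left; rw [h']; exact subset_univ _
      · left; rw [h', ← h]; exact hYX i (by omega)
      · rcases le_total i j with hij | hij
        · left; rw [← h, ← h']; exact X_subset hij
        · right; rw [← h, ← h']; exact X_subset hij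
  have hZF2 : Z ∈ F2 n d := by
    refine mem_filter.2 ⟨mem_univ _, hZch, ?_, mem_insert_self _ _⟩
    intro j hj
    exact mem_insert_of_mem (mem_insert_of_mem (mem_image.2 ⟨j, mem_range.2 hj, rfl⟩))
  -- the point `d - 2` is in `X_{d-1}` and not in `Y`; the point `n - 1` is in `Y`
  have hXY : ¬ X n (d - 1) ⊆ Y := by
    intro h
    have h1 : (⟨d - 2, by omega⟩ : Fin n) ∈ X n (d - 1) :=
      mem_filter.2 ⟨mem_univ _, by simp only; omega⟩
    rcases mem_insert.1 (h h1) with h2 | h2
    · have := congrArg Fin.val h2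
      simp only at this
      omega
    · have := (mem_filter.1 h2).2
      simp only at this
      omega
  have hYX' : ¬ Y ⊆ X n (d - 1) := by
    intro h
    have h1 := h (mem_insert_self _ _)
    have := (mem_filter.1 h1).2
    simp only at this
    omega
  have hYZ : Y ∈ Z := mem_insert_of_mem (mem_insert_self _ _)
  have hYne : Y ≠ X n n := by
    intro h
    apply hXY
    rw [h]
    exact X_subset (by omega)
  have hZnot : ∀ C ∈ F1 n d, rep n d C ≠ Z := by
    intro C hC h
    obtain ⟨-, hch, h1⟩ := mem_filter.1 hC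
    have a1 := h1 (d - 1) (by omega)
    have hYC : Y ∈ C := by
      unfold rep at h
      split_ifs at h with htop
      · rw [h]; exact hYZ
      · have h2 := hYZ
        rw [← h] at h2
        rcases mem_insert.1 h2 with h2 | h2
        · exact absurd h2 hYne
        · exact mem_of_mem_erase h2
    rcases hch.2 _ a1 _ hYC with h2 | h2
    · exact hXY h2
    · exact hYX' h2
  have h1 : (F1 n d).image (rep n d) ⊂ F2 n d := by
    rw [ssubset_iff_of_subset (by
      intro C hC
      obtain ⟨C', hC', rfl⟩ := mem_image.1 hC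
      exact hmaps C' hC')]
    refine ⟨Z, hZF2, ?_⟩
    intro h
    obtain ⟨C, hC, h⟩ := mem_image.1 h
    exact hZnot C hC h
  have h2 := card_lt_card h1
  rwa [card_image_of_injOn hinj] at h2

/-- **Main theorem.** For all `2 ≤ d ≤ n`, every optimal `d`-intersecting family of chains of subsets
of an `n`-element set has a member that does not contain all of `X_0, …, X_{d-1}`. In particular the
statement of the question fails for every `0 < ε < 1` (for `d ≥ 2` it fails for all `n`). -/
theorem result :
    (∀ n d : ℕ, 2 ≤ d → d ≤ n → ∀ F : Finset (Finset (Finset (Fin n))), Optimal d F →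
      ∃ C ∈ F, ∃ j < d, X n j ∉ C) ∧
    ¬ (∃ ε : ℝ, 0 < ε ∧ ε < 1 ∧ ∃ n0 : ℕ, ∀ n ≥ n0, ∀ d : ℕ, 1 ≤ d → (d : ℝ) ≤ n * (1 - ε) →
      ∃ F : Finset (Finset (Finset (Fin n))), Optimal d F ∧ ∀ C ∈ F, ∀ j < d, X n j ∈ C) := by
  have main : ∀ n d : ℕ, 2 ≤ d → d ≤ n → ∀ F : Finset (Finset (Finset (Fin n))), Optimal d F →
      ∃ C ∈ F, ∃ j < d, X n j ∉ C := by
    intro n d hd hdn F hF
    by_contra hcon
    push Not at hcon
    classical
    have h1 : F ⊆ F1 n d := by
      intro C hC
      exact mem_filter.2 ⟨mem_univ _, hF.1.1 C hC, hcon C hC⟩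
    have h2 := hF.2 _ (F2_dInt hd hdn)
    have h3 := card_le_card h1
    have h4 := card_lt hd hdn
    omega
  refine ⟨main, ?_⟩
  rintro ⟨ε, hε0, hε1, n0, h⟩
  obtain ⟨N, hN⟩ := exists_nat_gt (2 / (1 - ε))
  set n := max (max n0 N) 2 with hn
  have hnR : (2 : ℝ) / (1 - ε) ≤ n := by
    have : (N : ℝ) ≤ (n : ℝ) := by
      exact_mod_cast (le_trans (le_max_right n0 N) (le_max_left _ _))
    linarith
  have h1 : ((2 : ℕ) : ℝ) ≤ n * (1 - ε) := by
    have h2 : (0 : ℝ) < 1 - ε := by linarith
    rw [div_le_iff₀ h2] at hnR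
    exact_mod_cast hnR
  obtain ⟨F, hF, hall⟩ := h n (le_trans (le_max_left n0 N) (le_max_left _ _)) 2 (by norm_num) h1
  obtain ⟨C, hC, j, hj, hX⟩ := main n 2 le_rfl (le_max_right _ _) F hF
  exact hX (hall C hC j hj)

end Pool.Agent.Results.MP_63ed06_co.TopSetWins
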